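import Mathlib

/-!
For every `n` there is a holomorphic immersion of `SL(n, ℂ)` into `ℂ ^ (n ^ 2 - 1)`.

Write a matrix of determinant one as `A = (v_1, ..., v_{n-1}, w)` and let `m` be the last row of the
adjugate of `A` (so `m` depends on the `v_i` only, and `m · w = det A = 1`).  Put
`q_k = exp (2 π i m_k w_k)`, `E_k = (q_k - 1) / m_k` (an entire function of `m_k` and `w_k`) and
`E'_k = q_1 ⋯ q_{k-1} E_k`.  Then `∑ m_k E'_k = ∏ q_k - 1 = 0`, so that
`E' = x_1 v_1 + ... + x_{n-1} v_{n-1}` for unique holomorphic functions `x_i` on `SL(n, ℂ)`, and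
`(v_1, ..., v_{n-1}, x_1, ..., x_{n-1})` is the immersion.
-/

set_option autoImplicit false

open Matrix

namespace Pool.Agent.Results.MP_0cafb6_an.Immersion

/-- The entire function `x ↦ (exp (2 π i x) - 1) / x`. -/
noncomputable def Phi : ℂ → ℂ :=
  dslope (fun x : ℂ => Complex.exp (2 * Real.pi * Complex.I * x)) 0

lemma Phi_differentiable : Differentiable ℂ Phi := by
  rw [← differentiableOn_univ]
  unfold Phi
  rw [Complex.differentiableOn_dslope Filter.univ_mem]
  fun_prop

lemma mul_Phi (x : ℂ) : x * Phi x = Complex.exp (2 * Real.pi * Complex.I * x) - 1 := by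
  have h := sub_smul_dslope (fun x : ℂ => Complex.exp (2 * Real.pi * Complex.I * x)) 0 x
  simpa [Phi] using h

lemma Phi_zero : Phi 0 = 2 * Real.pi * Complex.I := by
  have h : HasDerivAt (fun x : ℂ => Complex.exp (2 * Real.pi * Complex.I * x))
      (2 * Real.pi * Complex.I) 0 := by
    have h1 : HasDerivAt (fun x : ℂ => 2 * Real.pi * Complex.I * x)
        (2 * Real.pi * Complex.I * 1) 0 := (hasDerivAt_id (0 : ℂ)).const_mul _
    have h2 := h1.cexp
    simpa using h2
  unfold Phi
  rw [dslope_same, h.deriv]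

lemma hasDerivAt_E (c w ω : ℂ) :
    HasDerivAt (fun t : ℂ => (w + t * ω) * Phi (c * (w + t * ω)))
      (2 * Real.pi * Complex.I * ω * Complex.exp (2 * Real.pi * Complex.I * (c * w))) 0 := by
  have hlin : HasDerivAt (fun t : ℂ => w + t * ω) ω 0 := by
    simpa using ((hasDerivAt_id (0 : ℂ)).mul_const ω).const_add w
  by_cases hc : c = 0
  · subst hc
    have h1 := hlin.mul_const (Phi 0)
    rw [Phi_zero] at h1
    simp only [zero_mul, mul_zero, Complex.exp_zero, mul_one, Phi_zero]
    exact h1.congr_deriv (by ring)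
  · have h1 : HasDerivAt (fun t : ℂ => 2 * Real.pi * Complex.I * (c * (w + t * ω)))
        (2 * Real.pi * Complex.I * (c * ω)) 0 := (hlin.const_mul c).const_mul _
    have h2 := (h1.cexp.sub_const 1).div_const c
    have h3 : (fun t : ℂ => (w + t * ω) * Phi (c * (w + t * ω))) =
        fun t : ℂ => (Complex.exp (2 * Real.pi * Complex.I * (c * (w + t * ω))) - 1) / c := by
      funext t
      rw [← mul_Phi]
      field_simp
    rw [h3]
    refine h2.congr_deriv ?_
    simp only [zero_mul, add_zero]
    field_simp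

variable {m : ℕ}

/-- The last row of the adjugate matrix. -/
noncomputable def cof (A : Matrix (Fin (m + 1)) (Fin (m + 1)) ℂ) (k : Fin (m + 1)) : ℂ :=
  A.adjugate (Fin.last m) k

/-- `q_k = exp (2 π i m_k w_k)`. -/
noncomputable def q (A : Matrix (Fin (m + 1)) (Fin (m + 1)) ℂ) (k : Fin (m + 1)) : ℂ :=
  Complex.exp (2 * Real.pi * Complex.I * (cof A k * A k (Fin.last m)))

/-- `E'_k = q_1 ⋯ q_{k-1} E_k`, where `E_k = (q_k - 1) / m_k`. -/
noncomputable def E (A : Matrix (Fin (m + 1)) (Fin (m + 1)) ℂ) (k : Fin (m + 1)) : ℂ :=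
  (∏ j ∈ Finset.univ.filter (· < k), q A j) *
    (A k (Fin.last m) * Phi (cof A k * A k (Fin.last m)))

/-- The coordinates of `E'` with respect to the columns of `A` (when `det A = 1`). -/
noncomputable def x (A : Matrix (Fin (m + 1)) (Fin (m + 1)) ℂ) : Fin (m + 1) → ℂ :=
  A.adjugate *ᵥ E A

lemma det_eq (A : Matrix (Fin (m + 1)) (Fin (m + 1)) ℂ) :
    A.det = ∑ k, cof A k * A k (Fin.last m) := by
  have h := congrFun (congrFun (Matrix.adjugate_mul A) (Fin.last m)) (Fin.last m)
  rw [Matrix.mul_apply] at h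
  simp only [Matrix.smul_apply, Matrix.one_apply_eq, smul_eq_mul, mul_one] at h
  rw [← h]
  rfl

lemma adjugate_eq (A : Matrix (Fin (m + 1)) (Fin (m + 1)) ℂ) (i j : Fin (m + 1)) :
    A.adjugate i j = (A.updateCol i (Pi.single j 1)).det := by
  have h : A.adjugate i j = Aᵀ.adjugate j i := by
    rw [← Matrix.adjugate_transpose]; rfl
  rw [h, Matrix.adjugate_apply, Matrix.updateRow_transpose, Matrix.det_transpose]

lemma sum_cof_E (A : Matrix (Fin (m + 1)) (Fin (m + 1)) ℂ) :
    ∑ k, cof A k * E A k = (∏ k, q A k) - 1 := by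
  have h := Finset.prod_add_ordered (Finset.univ : Finset (Fin (m + 1)))
    (fun _ => (1 : ℂ)) (fun k => q A k - 1)
  simp only [add_sub_cancel, Finset.prod_const_one, mul_one] at h
  rw [h]
  rw [add_sub_cancel_left]
  refine Finset.sum_congr rfl fun k _ => ?_
  have h2 : q A k - 1 = cof A k * A k (Fin.last m) * Phi (cof A k * A k (Fin.last m)) := by
    rw [mul_Phi]
    rfl
  rw [h2]
  unfold E
  ring

lemma x_last (A : Matrix (Fin (m + 1)) (Fin (m + 1)) ℂ) (hA : A.det = 1) :
    x A (Fin.last m) = 0 := by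
  have h1 : x A (Fin.last m) = ∑ k, cof A k * E A k := rfl
  rw [h1, sum_cof_E]
  unfold q
  rw [← Complex.exp_sum, ← Finset.mul_sum, ← det_eq, hA, mul_one, Complex.exp_two_pi_mul_I,
    sub_self]

lemma E_eq (A : Matrix (Fin (m + 1)) (Fin (m + 1)) ℂ) (hA : A.det = 1) (k : Fin (m + 1)) :
    E A k = ∑ j : Fin m, A k j.castSucc * x A j.castSucc := by
  have h1 : A *ᵥ x A = E A := by
    unfold x
    rw [Matrix.mulVec_mulVec, Matrix.mul_adjugate, hA, one_smul, Matrix.one_mulVec]
  have h2 : E A k = (A *ᵥ x A) k := by rw [h1]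
  rw [h2, Matrix.mulVec, dotProduct, Fin.sum_univ_castSucc, x_last A hA, mul_zero, add_zero]



/-- The immersion, with its `(m + 1) * m + m` components indexed by a sum type. -/
noncomputable def F' (A : Matrix (Fin (m + 1)) (Fin (m + 1)) ℂ) :
    (Fin (m + 1) × Fin m) ⊕ Fin m → ℂ :=
  Sum.elim (fun p => A p.1 p.2.castSucc) (fun i => x A i.castSucc)

section Calculus

/-!
The calculus is done on the space `Fin (m + 1) → Fin (m + 1) → ℂ`, which carries a canonical norm.
-/

lemma differentiable_entry (i j : Fin (m + 1)) :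
    Differentiable ℂ (fun A : Fin (m + 1) → Fin (m + 1) → ℂ => A i j) := by fun_prop

lemma differentiable_prod {ι : Type*} {f : ι → (Fin (m + 1) → Fin (m + 1) → ℂ) → ℂ}
    (s : Finset ι) (hf : ∀ i, Differentiable ℂ (f i)) :
    Differentiable ℂ (fun A => ∏ i ∈ s, f i A) := by
  classical
  induction s using Finset.induction_on with
  | empty => simp
  | insert a s ha ih =>
    simp only [Finset.prod_insert ha]
    exact (hf a).mul ih

lemma differentiable_det_of {B : (Fin (m + 1) → Fin (m + 1) → ℂ) →
      Matrix (Fin (m + 1)) (Fin (m + 1)) ℂ}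
    (hB : ∀ i j, Differentiable ℂ (fun A => B A i j)) :
    Differentiable ℂ (fun A => (B A).det) := by
  have h : (fun A => (B A).det) =
      fun A => ∑ σ : Equiv.Perm (Fin (m + 1)), (Equiv.Perm.sign σ : ℂ) * ∏ i, B A (σ i) i := by
    funext A
    rw [Matrix.det_apply']
  rw [h]
  refine Differentiable.fun_sum fun σ _ => ?_
  refine Differentiable.const_mul ?_ _
  exact differentiable_prod Finset.univ fun i => hB (σ i) i

lemma differentiable_det :
    Differentiable ℂ (fun A : Fin (m + 1) → Fin (m + 1) → ℂ => Matrix.det (Matrix.of A)) :=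
  differentiable_det_of (B := fun A => Matrix.of A) differentiable_entry

lemma differentiable_adjugate (i j : Fin (m + 1)) :
    Differentiable ℂ
      (fun A : Fin (m + 1) → Fin (m + 1) → ℂ => (Matrix.of A).adjugate i j) := by
  simp only [adjugate_eq]
  refine differentiable_det_of (B := fun A => (Matrix.of A).updateCol i (Pi.single j 1))
    fun k l => ?_
  simp only [Matrix.updateCol_apply]
  split_ifs
  · fun_prop
  · exact differentiable_entry _ _

lemma differentiable_cof (k : Fin (m + 1)) :
    Differentiable ℂ (fun A : Fin (m + 1) → Fin (m + 1) → ℂ => cof (Matrix.of A) k) :=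
  differentiable_adjugate _ _

lemma differentiable_q (k : Fin (m + 1)) :
    Differentiable ℂ (fun A : Fin (m + 1) → Fin (m + 1) → ℂ => q (Matrix.of A) k) := by
  unfold q
  exact (((differentiable_cof k).mul (differentiable_entry k _)).const_mul _).cexp

lemma differentiable_E (k : Fin (m + 1)) :
    Differentiable ℂ (fun A : Fin (m + 1) → Fin (m + 1) → ℂ => E (Matrix.of A) k) := by
  unfold E
  refine Differentiable.mul ?_ ?_
  · exact differentiable_prod _ fun i => differentiable_q i
  · exact (differentiable_entry k _).mul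
      (Phi_differentiable.comp ((differentiable_cof k).mul (differentiable_entry k _)))

lemma differentiable_x (k : Fin (m + 1)) :
    Differentiable ℂ (fun A : Fin (m + 1) → Fin (m + 1) → ℂ => x (Matrix.of A) k) := by
  unfold x Matrix.mulVec dotProduct
  refine Differentiable.fun_sum fun j _ => ?_
  exact (differentiable_adjugate k j).mul (differentiable_E j)

lemma differentiable_F' :
    Differentiable ℂ (fun A : Fin (m + 1) → Fin (m + 1) → ℂ => F' (Matrix.of A)) := by
  rw [differentiable_pi]
  rintro (⟨i, j⟩ | i)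
  · exact differentiable_entry _ _
  · exact differentiable_x _

/-- Derivative of a function along the line `t ↦ A + t X`. -/
lemma hasDerivAt_line {G : Type*} [NormedAddCommGroup G] [NormedSpace ℂ G]
    {f : (Fin (m + 1) → Fin (m + 1) → ℂ) → G} (hf : Differentiable ℂ f)
    (A X : Fin (m + 1) → Fin (m + 1) → ℂ) :
    HasDerivAt (fun t : ℂ => f (A + t • X)) (fderiv ℂ f A X) 0 := by
  have h1 : HasDerivAt (fun t : ℂ => A + t • X) X 0 := by
    simpa using ((hasDerivAt_id (0 : ℂ)).smul_const X).const_add A
  have h2 : HasFDerivAt f (fderiv ℂ f A) (A + (0 : ℂ) • X) := by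
    simpa using (hf A).hasFDerivAt
  exact h2.comp_hasDerivAt (0 : ℂ) h1

end Calculus

section Injectivity

variable {A X : Matrix (Fin (m + 1)) (Fin (m + 1)) ℂ}

/-- The last row of the adjugate does not depend on the last column. -/
lemma cof_line (hX : ∀ i (j : Fin m), X i j.castSucc = 0) (t : ℂ) (k : Fin (m + 1)) :
    cof (A + t • X) k = cof A k := by
  unfold cof
  rw [adjugate_eq, adjugate_eq]
  congr 1
  ext i j
  simp only [Matrix.updateCol_apply]
  split_ifs with h
  · rfl
  · obtain ⟨j', rfl⟩ := Fin.exists_castSucc_eq.mpr h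
    simp [hX]

lemma det_line (hX : ∀ i (j : Fin m), X i j.castSucc = 0) (t : ℂ) :
    (A + t • X).det = A.det + t * ∑ k, cof A k * X k (Fin.last m) := by
  rw [det_eq, det_eq, Finset.mul_sum, ← Finset.sum_add_distrib]
  refine Finset.sum_congr rfl fun k _ => ?_
  rw [cof_line hX]
  simp only [Matrix.add_apply, Matrix.smul_apply, smul_eq_mul]
  ring

lemma injective_aux (hA : A.det = 1) (hX : ∀ i (j : Fin m), X i j.castSucc = 0)
    (hdet : ∑ k, cof A k * X k (Fin.last m) = 0)
    (hx : ∀ i : Fin m, HasDerivAt (fun t : ℂ => x (A + t • X) i.castSucc) 0 0) :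
    X = 0 := by
  have hdet' : ∀ t : ℂ, (A + t • X).det = 1 := by
    intro t
    rw [det_line hX, hdet, mul_zero, add_zero, hA]
  -- the derivative of `E'` vanishes
  have hE : ∀ k, HasDerivAt (fun t : ℂ => E (A + t • X) k) 0 0 := by
    intro k
    have h1 : (fun t : ℂ => E (A + t • X) k) =
        fun t : ℂ => ∑ j : Fin m, A k j.castSucc * x (A + t • X) j.castSucc := by
      funext t
      rw [E_eq _ (hdet' t)]
      refine Finset.sum_congr rfl fun j _ => ?_
      simp [hX]
    rw [h1]
    have h2 := HasDerivAt.fun_sum (u := Finset.univ)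
      (fun (j : Fin m) _ => (hx j).const_mul (A k j.castSucc))
    simpa using h2
  -- induction on the row
  have key : ∀ k, X k (Fin.last m) = 0 := by
    intro k
    induction k using WellFoundedLT.induction with
    | ind k ih =>
    -- the products `q_1 ⋯ q_{k-1}` are constant along the line
    have hq : ∀ t : ℂ, (∏ j ∈ Finset.univ.filter (· < k), q (A + t • X) j) =
        ∏ j ∈ Finset.univ.filter (· < k), q A j := by
      intro t
      refine Finset.prod_congr rfl fun j hj => ?_
      have hj' : X j (Fin.last m) = 0 := ih j (Finset.mem_filter.mp hj).2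
      unfold q
      rw [cof_line hX]
      simp [hj']
    have h1 : HasDerivAt (fun t : ℂ => E (A + t • X) k)
        ((∏ j ∈ Finset.univ.filter (· < k), q A j) * (2 * Real.pi * Complex.I * X k (Fin.last m) *
          Complex.exp (2 * Real.pi * Complex.I * (cof A k * A k (Fin.last m))))) 0 := by
      have h2 := (hasDerivAt_E (cof A k) (A k (Fin.last m)) (X k (Fin.last m))).const_mul
        (∏ j ∈ Finset.univ.filter (· < k), q A j)
      have h3 : (fun t : ℂ => E (A + t • X) k) = fun t : ℂ =>
          (∏ j ∈ Finset.univ.filter (· < k), q A j) * ((A k (Fin.last m) + t * X k (Fin.last m)) *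
            Phi (cof A k * (A k (Fin.last m) + t * X k (Fin.last m)))) := by
        funext t
        unfold E
        rw [hq, cof_line hX]
        simp only [Matrix.add_apply, Matrix.smul_apply, smul_eq_mul]
      rw [h3]
      exact h2
    have h4 := h1.unique (hE k)
    have h5 : (∏ j ∈ Finset.univ.filter (· < k), q A j) ≠ 0 :=
      Finset.prod_ne_zero_iff.mpr fun j _ => Complex.exp_ne_zero _
    have h6 : (2 * Real.pi * Complex.I : ℂ) ≠ 0 := Complex.two_pi_I_ne_zero
    rcases mul_eq_zero.mp h4 with h | h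
    · exact absurd h h5
    · rcases mul_eq_zero.mp h with h | h
      · rcases mul_eq_zero.mp h with h | h
        · exact absurd h h6
        · exact h
      · exact absurd h (Complex.exp_ne_zero _)
  ext i j
  refine Fin.lastCases ?_ (fun j => ?_) j
  · exact key i
  · exact hX i j

end Injectivity

/-- The number of components is `(m + 1) ^ 2 - 1`. -/
lemma card_index : Fintype.card ((Fin (m + 1) × Fin m) ⊕ Fin m) =
    Fintype.card (Fin ((m + 1) ^ 2 - 1)) := by
  simp only [Fintype.card_sum, Fintype.card_prod, Fintype.card_fin]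
  have : (m + 1) ^ 2 = (m + 1) * m + m + 1 := by ring
  omega

/-- **Theorem.** For every `n ≥ 1` there is a holomorphic immersion
`SL(n, ℂ) → ℂ ^ (n ^ 2 - 1)`: there is an entire map `F` on the space of all `n × n` matrices such
that, at every matrix `A` of determinant one, the differential of `F` is injective on the tangent
space `T_A SL(n, ℂ) = ker (d det)_A`. -/
theorem result (n : ℕ) (hn : 1 ≤ n) :
    ∃ F : Matrix (Fin n) (Fin n) ℂ → (Fin (n ^ 2 - 1) → ℂ),
      Differentiable ℂ F ∧
      ∀ A : Matrix (Fin n) (Fin n) ℂ, A.det = 1 →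
        ∀ X : Matrix (Fin n) (Fin n) ℂ,
          fderiv ℂ (fun M : Matrix (Fin n) (Fin n) ℂ => M.det) A X = 0 →
          fderiv ℂ F A X = 0 → X = 0 := by
  obtain ⟨m, rfl⟩ : ∃ m, n = m + 1 := ⟨n - 1, by omega⟩
  let e : Fin ((m + 1) ^ 2 - 1) ≃ (Fin (m + 1) × Fin m) ⊕ Fin m :=
    (Fintype.equivOfCardEq card_index).symm
  have hF : Differentiable ℂ
      (fun A : Fin (m + 1) → Fin (m + 1) → ℂ => fun k => F' (Matrix.of A) (e k)) := by
    rw [differentiable_pi]
    intro k
    exact differentiable_pi.mp differentiable_F' (e k)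
  refine ⟨fun A k => F' A (e k), hF, ?_⟩
  intro A hA X hXdet hXF
  have hline := hasDerivAt_line hF A X
  have hdline := hasDerivAt_line differentiable_det A X
  have hXF' : HasDerivAt (fun t : ℂ => fun k => F' (A + t • X) (e k))
      (fderiv ℂ (fun (M : Matrix (Fin (m + 1)) (Fin (m + 1)) ℂ) k => F' M (e k)) A X) 0 := hline
  rw [hXF] at hXF'
  have hcomp : ∀ s, HasDerivAt (fun t : ℂ => F' (A + t • X) s) 0 0 := by
    intro s
    have := hasDerivAt_pi.mp hXF' (e.symm s)
    simpa using this
  have hX : ∀ i (j : Fin m), X i j.castSucc = 0 := by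
    intro i j
    have h1 : HasDerivAt (fun t : ℂ => A i j.castSucc + t * X i j.castSucc) 0 0 :=
      hcomp (Sum.inl (i, j))
    have h2 : HasDerivAt (fun t : ℂ => A i j.castSucc + t * X i j.castSucc)
        (X i j.castSucc) 0 := by
      simpa using ((hasDerivAt_id (0 : ℂ)).mul_const (X i j.castSucc)).const_add
        (A i j.castSucc)
    exact h2.unique h1
  have hdet : ∑ k, cof A k * X k (Fin.last m) = 0 := by
    have h1 : HasDerivAt (fun t : ℂ => (A + t • X).det)
        (fderiv ℂ (fun M : Matrix (Fin (m + 1)) (Fin (m + 1)) ℂ => M.det) A X) 0 := hdline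
    rw [hXdet] at h1
    have h2 : HasDerivAt (fun t : ℂ => (A + t • X).det)
        (∑ k, cof A k * X k (Fin.last m)) 0 := by
      simp only [det_line hX]
      simpa using ((hasDerivAt_id (0 : ℂ)).mul_const
        (∑ k, cof A k * X k (Fin.last m))).const_add A.det
    exact h2.unique h1
  exact injective_aux hA hX hdet fun i => hcomp (Sum.inr i)

end Pool.Agent.Results.MP_0cafb6_an.Immersion
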